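import Pool.Agent.TH677.EF.Asym

/-!
# Extended Frege proofs whose extension axioms have small decomposition depth or small treewidth

The notions (see the files `Can`, `Sim`, `Solve`, `Tree` in `Pool/Agent/TH677/EF`):

* `Fr F (A :: L)`: `A :: L` (last line first) is a proof of `A` in the Frege system `F`;
* `EFP F A E (A :: L)`: `A :: L` is an extended Frege proof of `A`; `E` is the list of its
  extension axioms `q ↔ ψ`, as pairs `(q, ψ)`; `keys E` is the set of the extension variables and
  `dfn E q` the definition `ψ` of `q`;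
* `psize`: the number of symbols of a proof;
* `Dec (dfn E) (keys E) d`: the extension variables have decomposition depth at most `d`;
* `TreeDec (dfn E) (keys E) w`: a tree decomposition of width at most `w` of the graph of the
  extension variables in which `q` is joined to the extension variables in its definition.
-/

set_option autoImplicit false

namespace Pool.Agent.Results.MP_c07f0d_lc.DecompositionDepth

open Pool.Agent.H555R2.PF Pool.Agent.H555R2.PF.Fm Pool.Agent.TH677.EF

/-- For every Frege system `F` there is a constant `C` such that the following holds for every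
extended Frege proof of a formula `A`, of size `s`, with the list `E` of extension axioms.

1. If the definitions have size at most `b` and decomposition depth at most `d`, then `A` has a
   Frege proof of size at most `s (C (b + 1)) ^ (d + 3)`.
2. If the definitions have size at most `b` and the graph of the extension variables has treewidth
   at most `w`, then `A` has a Frege proof of size at most
   `s (C (b + 1)) ^ ((w + 1) (log₂ |E| + 1) + 3)`.

For every `c` and `ε > 0` there is `n₀` such that if `|A| ≥ n₀`, `s ≤ |A| ^ c`, and the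
decomposition depth or the treewidth is at most `|A| ^ (ε / 2)`, then `A` has a Frege proof of
size less than `2 ^ (|A| ^ ε)`. -/
theorem result (F : List Rule) (hF : IsFrege F) :
    (∃ C : ℕ, ∀ (A : Fm) (E : List (ℕ × Fm)) (L : List Fm), EFP F A E (A :: L) →
      (∀ b d : ℕ, (∀ p ∈ E, p.2.size ≤ b) → Dec (dfn E) (keys E) d →
        ∃ L' : List Fm, Fr F (A :: L') ∧
          psize (A :: L') ≤ psize (A :: L) * (C * (b + 1)) ^ (d + 3)) ∧
      ∀ b w : ℕ, (∀ p ∈ E, p.2.size ≤ b) → Nonempty (TreeDec (dfn E) (keys E) w) →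
        ∃ L' : List Fm, Fr F (A :: L') ∧ psize (A :: L') ≤
          psize (A :: L) * (C * (b + 1)) ^ ((w + 1) * (Nat.log 2 E.length + 1) + 3)) ∧
    ∀ (c : ℕ) (ε : ℝ), 0 < ε → ∃ n₀ : ℕ, ∀ (A : Fm) (E : List (ℕ × Fm)) (L : List Fm),
      EFP F A E (A :: L) → n₀ ≤ A.size → psize (A :: L) ≤ A.size ^ c →
      ∀ m : ℕ, (m : ℝ) ≤ (A.size : ℝ) ^ (ε / 2) →
      (Dec (dfn E) (keys E) m ∨ Nonempty (TreeDec (dfn E) (keys E) m)) →
      ∃ L' : List Fm, Fr F (A :: L') ∧ (psize (A :: L') : ℝ) < 2 ^ ((A.size : ℝ) ^ ε) := by
  refine ⟨?_, fun c ε hε => no_separation hF c ε hε⟩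
  obtain ⟨C₁, h₁⟩ := sim_dec hF
  obtain ⟨C₂, h₂⟩ := sim_tree hF
  refine ⟨C₁ + C₂, fun A E L h => ⟨fun b d hb hd => ?_, fun b w hb hw => ?_⟩⟩
  · obtain ⟨L', g1, g2⟩ := h₁ A E L h b d hb hd
    refine ⟨L', g1, g2.trans (Nat.mul_le_mul_left _ (Nat.pow_le_pow_left ?_ _))⟩
    exact Nat.mul_le_mul_right _ (by omega)
  · obtain ⟨L', g1, g2⟩ := h₂ A E L h b w hb hw
    refine ⟨L', g1, g2.trans (Nat.mul_le_mul_left _ (Nat.pow_le_pow_left ?_ _))⟩
    exact Nat.mul_le_mul_right _ (by omega)

end Pool.Agent.Results.MP_c07f0d_lc.DecompositionDepth
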