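import Pool.Agent.TH699.TS.ExtReuse

/-!
An exponential separation between a system and its extended version: the lines are polynomial
inequalities of degree at most `k` with real coefficients or systems of polynomial equations of
degree at most `k` modulo any numbers, or Boolean functions of `r` such lines, and few lines are used
more than once (in particular, the refutations may be tree-like).
-/

open Finset

namespace Pool.Agent.Results.MP_c07f0d_lc.DegreeVersusExtension

open Pool.Agent.H642R2.Dual Pool.Agent.TH699.TD Pool.Agent.TH699.TS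

/-- For all `k ≥ 1` and `n ≥ 25` there is an unsatisfiable CNF formula `Φ` whose number `N` of
variables is between `n` and `C n`, where `C = 2^(4k+13)`, with at most `2^C n` clauses, each with
at most `C` literals, such that
* with at most `N` extension variables, each of which stands for a conjunction of `k + 1` variables,
  there is a tree-like refutation of `Φ` with at most `2^C n` nodes whose lines are systems of
  linear equations modulo 2 (at most one equation more than there are variables and extension
  variables) or negations of such systems, but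
* without extension variables, for all `r` and `s`, every dag-like semantic refutation of `Φ` with
  `T` lines, each of which has at most two premises and is a Boolean function of `r` polynomial
  inequalities of degree at most `k` with real coefficients or systems of polynomial equations of
  degree at most `k` modulo some numbers, in which at most `s` lines, not counting lines which
  follow from one clause of `Φ`, are used more than once as premises, satisfies
  `T ≥ 2^(N/(C log₂ N (r+1)) - s - 1)`.  (`s = 0`: tree-like refutations.) -/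
theorem result (k n : ℕ) (hk : 1 ≤ k) (hn : 25 ≤ n) :
    ∃ (V : Type) (_ : Fintype V) (_ : DecidableEq V) (Φ : Finset (Clause V)),
      n ≤ Fintype.card V ∧ Fintype.card V ≤ 2 ^ (4 * k + 13) * n ∧
      Φ.card ≤ 2 ^ 2 ^ (4 * k + 13) * n ∧ (∀ C ∈ Φ, C.card ≤ 2 ^ (4 * k + 13)) ∧
      (∀ x, ∃ C ∈ Φ, ¬ Sat C x) ∧
      (∃ (W : Type) (_ : Fintype W) (_ : DecidableEq W) (D : W → Finset V),
        Fintype.card W ≤ Fintype.card V ∧ (∀ w, (D w).card = k + 1) ∧
        ∃ t : Der (V ⊕ W), t.IsRefutation (ExtAx Φ D) ∧ t.All (Mod2Line 1) ∧
          nodes t ≤ 2 ^ 2 ^ (4 * k + 13) * n) ∧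
      (∀ (r T : ℕ) (L : ℕ → Line V) (P : ℕ → Finset ℕ) (U : Finset ℕ),
        IsDag (ClauseAx Φ) T L P → (∀ i < T, (P i).card ≤ 2) →
        (∀ i < T, Combo r (fun L => PolyLine k L ∨ ModLine k L) (L i)) →
        (∀ u, u ∉ U → ¬ ClauseAx Φ (L u) →
          ∀ i < T, ∀ i' < T, u ∈ P i → u ∈ P i' → i = i') →
        (2 : ℝ) ^ (Fintype.card V / (2 ^ (4 * k + 13) *
          Real.logb 2 (Fintype.card V) * (r + 1)) - U.card - 1 : ℝ) ≤ T) := by
  obtain ⟨V, i1, i2, Φ, blk, W, i3, i4, D, h1, h2, h3, h4, h5, h6, -, h7, ⟨t, h8, h8', h8''⟩, -,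
    h9⟩ := exists_ext_reuse hk hn
  have e : 2 ^ (3 * k + 13) ≤ 2 ^ (4 * k + 13) := Nat.pow_le_pow_right (by norm_num) (by omega)
  have e' : 2 ^ 2 ^ (3 * k + 13) * n ≤ 2 ^ 2 ^ (4 * k + 13) * n :=
    Nat.mul_le_mul_right _ (Nat.pow_le_pow_right (by norm_num) e)
  exact ⟨V, i1, i2, Φ, h1, h2.trans (Nat.mul_le_mul_right _ e), h3.trans e',
    fun C hC => (h4 C hC).trans e, h5, ⟨W, i3, i4, D, h6, h7, t, h8, h8', h8''.trans e'⟩, h9⟩

end Pool.Agent.Results.MP_c07f0d_lc.DegreeVersusExtension
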