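import Pool.Agent.TH677.EF.All

/-!
# Frege simulates extended Frege in size `s ^ 2 * 2 ^ O(m / log m)`

Here `s` is the size of the extended Frege proof and `m` the total size of the definitions in its
extension axioms.  The notions (see the files `Can` and `Sim` in `Pool/Agent/TH677/EF`):

* `Fr F (A :: L)`: `A :: L` (last line first) is a proof of `A` in the Frege system `F`;
* `EFP F A E (A :: L)`: `A :: L` is an extended Frege proof of `A`; `E` is the list of its
  extension axioms `q ↔ ψ`, as pairs `(q, ψ)`;
* `esize E`: the sum of the sizes of the definitions `ψ`;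
* `psize`: the number of symbols of a proof.
-/

set_option autoImplicit false

namespace Pool.Agent.Results.MP_c07f0d_lc.ExtensionSizeOverLog

open Pool.Agent.H555R2.PF Pool.Agent.H555R2.PF.Fm Pool.Agent.TH677.EF

/-- For every Frege system `F` there is a constant `C` such that every formula `A` with an
extended Frege proof of size `s`, whose extension axioms have definitions of total size `m`, has

* a Frege proof of size at most `C s ^ 2 2 ^ (C (m + 1) / log₂ (m + 2))`,
* a Frege proof of size at most `2 ^ (C s / log₂ (s + 1))`. -/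
theorem result (F : List Rule) (hF : IsFrege F) : ∃ C : ℕ, ∀ (A : Fm) (E : List (ℕ × Fm))
    (L : List Fm), EFP F A E (A :: L) →
    (∃ L' : List Fm, Fr F (A :: L') ∧ psize (A :: L') ≤ C * psize (A :: L) ^ 2 *
      2 ^ (C * (esize E + 1) / Nat.log 2 (esize E + 2))) ∧
    ∃ L' : List Fm, Fr F (A :: L') ∧
      psize (A :: L') ≤ 2 ^ (C * psize (A :: L) / Nat.log 2 (psize (A :: L) + 1)) := by
  obtain ⟨C₁, h₁⟩ := sim_ext hF
  obtain ⟨C₂, h₂⟩ := sim_all hF
  refine ⟨C₁ + C₂, fun A E L h => ⟨?_, ?_⟩⟩
  · obtain ⟨L', g1, g2⟩ := h₁ A E L h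
    refine ⟨L', g1, g2.trans (Nat.mul_le_mul (Nat.mul_le_mul_right _ (by omega))
      (Nat.pow_le_pow_right (by norm_num) ?_))⟩
    exact Nat.div_le_div_right (Nat.mul_le_mul_right _ (by omega))
  · obtain ⟨L', g1, g2⟩ := h₂ A E L h
    refine ⟨L', g1, g2.trans (Nat.pow_le_pow_right (by norm_num) ?_)⟩
    exact Nat.div_le_div_right (Nat.mul_le_mul_right _ (by omega))

end Pool.Agent.Results.MP_c07f0d_lc.ExtensionSizeOverLog
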