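import Pool.Agent.TH699.TS.ExtSpace

/-!
Length and space of dag-like refutations with and without extension variables.
-/

open Finset

namespace Pool.Agent.Results.MP_c07f0d_lc.ExtensionSpace

open Pool.Agent.H642R2.Dual Pool.Agent.TH699.TD Pool.Agent.TH699.TS

/-- For all `k ≥ 1` and `n ≥ 25` there is an unsatisfiable CNF formula `Φ` whose number `N` of
variables is between `n` and `C n`, where `C = 2^(4k+13)`, with at most `2^C n` clauses, each with
at most `C` literals, such that
* with at most `N` extension variables, each of which stands for a conjunction of `k + 1` variables,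
  there is a blackboard refutation of `Φ` of length at most `2^C n` and space `C` whose lines are
  systems of linear equations modulo 2 (at most one equation more than there are variables and
  extension variables) or negations of such systems, but
* without extension variables every (dag-like) semantic blackboard refutation of `Φ` of length `l`
  and space `s`, each line of which is a polynomial inequality of degree at most `k` with real
  coefficients, or a system of polynomial equations of degree at most `k` modulo some number, or the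
  negation of such a system, satisfies `(s + 2) (log₂ l + 3) ≥ N/(C log₂ N)`. -/
theorem result (k n : ℕ) (hk : 1 ≤ k) (hn : 25 ≤ n) :
    ∃ (V : Type) (_ : Fintype V) (_ : DecidableEq V) (Φ : Finset (Clause V)),
      n ≤ Fintype.card V ∧ Fintype.card V ≤ 2 ^ (4 * k + 13) * n ∧
      Φ.card ≤ 2 ^ 2 ^ (4 * k + 13) * n ∧ (∀ C ∈ Φ, C.card ≤ 2 ^ (4 * k + 13)) ∧
      (∀ x, ∃ C ∈ Φ, ¬ Sat C x) ∧
      (∃ (W : Type) (_ : Fintype W) (_ : DecidableEq W) (D : W → Finset V),
        Fintype.card W ≤ Fintype.card V ∧ (∀ w, (D w).card = k + 1) ∧
        ∃ (l : ℕ) (cfg : ℕ → List (Line (V ⊕ W))), l ≤ 2 ^ 2 ^ (4 * k + 13) * n ∧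
          IsBoard (ExtAx Φ D) (2 ^ (4 * k + 13)) l cfg ∧
          ∀ i ≤ l, ∀ L ∈ cfg i, Mod2Line 1 L) ∧
      (∀ (s l : ℕ) (cfg : ℕ → List (Line V)), IsBoard (ClauseAx Φ) s l cfg →
        (∀ i ≤ l, ∀ L ∈ cfg i, PolyLine k L ∨ ModLine k L) →
        (Fintype.card V : ℝ) / (2 ^ (4 * k + 13) * Real.logb 2 (Fintype.card V)) ≤
          (s + 2) * (Real.logb 2 l + 3)) :=
  exists_ext_space hk hn

end Pool.Agent.Results.MP_c07f0d_lc.ExtensionSpace
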